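import Pool.Agent.H37.CNY.Stmts
import Pool.Agent.H90.CNY.Stmts

/-!
# Board cny, row TAX (from the row `YT1` of the board cny)
-/

set_option autoImplicit false

namespace Pool.CND

theorem tax_thm (hYT1 : S_YT1) : S_TAX := by
  intro p k G _ _ _ c hp hk hc
  rcases hYT1 p k G hp hk c hc with h0 | ⟨W, I, C, hD⟩
  · exact Or.inl h0
  right
  obtain ⟨n, hn, hIn⟩ := hD.cardI
  refine ⟨W, I, C, n, hD.CW, hD.WI, hD.ne, hD.cardW, hD.nrmW, hD.nrmC, hD.cen, ?_, hn, hIn, ?_⟩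
  · exact hD.ea.1
  · intro r hr
    exact (hD.den r).1 hr

end Pool.CND
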